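import Pool.Agent.R166.Solid.Main
import Pool.Agent.Results.MP_5e7226_co.ExtremePointsInFlats

set_option autoImplicit false

/-!
# MP_5e7226_co: bodies determined by the gauges of blocks of coordinates

Let `L_j` be a convex body in `ℝ^(m_j)`, `m_j ≥ 1`, with the interior point `0` and the gauge
`g_j`, for `j = 1, …, k`, and let `K` be a convex body in `ℝ^(m_1) × … × ℝ^(m_k)` with the interior
point `0` such that it depends only on `g_1 (x_1), …, g_k (x_k)` whether `x` belongs to `K`: the unit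
balls of unconditional sums, direct sums, hulls of the union of the `L_j`, and so on.
Let `s (L_j, 0) ≤ N_j`. It is proved:

1. `s (K, 0) ≤ ∏ (N_j + 1) - 1`, if `k ≥ 1`;
2. if `∑ 1 / N_j ≤ 1` then `s (K, 0) ≤ ∏ N_j`;
3. if `k = 3` and `N_j ≥ 2` then `s (K, 0) ≤ ∏ N_j`.

With `N_j = 2 ^ m_j`: if the bodies `L_j` satisfy the bound of the problem, then so does `K`, when
there are three blocks or the dimensions of the blocks satisfy the Kraft inequality
`∑ 2 ^ (-m_j) ≤ 1`, for instance when all `m_j ≥ log_2 k`.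

The proof. Let `h_j` be the gauge of the polar body of `L_j`, that is the support function of `L_j`.
For `v` in the polar body of `K` and `h_j (v'_j) ≤ h_j (v_j)` for all `j`, and `x ∈ K`, we have
`∑ ⟪v'_j, x_j⟫ ≤ ∑ h_j (v_j) g_j (x_j) = ∑ ⟪v_j, g_j (x_j) z_j⟫ ≤ 1`, where `z_j` is a point of
gauge one at which `⟪v_j, ·⟫` is maximal on `L_j`, since the point with the components
`g_j (x_j) z_j` belongs to `K` as well. So the polar body is of the same kind for the polars of the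
`L_j`, and it is a solid sum of them. The separation of the faces of `L_j` gives a covering of
its polar body, and the coverings of solid sums are estimated in the files `KraftSums` and
`ThreeBodySums` of helper753, and `UnconditionalSums` of the starting library.
-/

namespace Pool.Agent.Results.MP_5e7226_co.BlockwiseGaugeInvariant

open scoped InnerProductSpace
open Pool.Agent.TH438.Hull

/-- Some `N` hyperplanes `{x | ⟪w i, x⟫ = b i}` are such that every face of `K` (the set of the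
points `x` of `K` at which `⟪u, x⟫` is maximal, `u ≠ 0`) is strictly separated from `o` by one of
them. -/
def SeparatedBy {E : Type*} [NormedAddCommGroup E] [InnerProductSpace ℝ E] (K : Set E) (o : E)
    (N : ℕ) : Prop :=
  ∃ (w : Fin N → E) (b : Fin N → ℝ), ∀ u x₀ : E, u ≠ 0 → x₀ ∈ K →
    (∀ y ∈ K, ⟪u, y⟫_ℝ ≤ ⟪u, x₀⟫_ℝ) →
      ∃ i, ⟪w i, o⟫_ℝ < b i ∧ ∀ x ∈ K, ⟪u, x⟫_ℝ = ⟪u, x₀⟫_ℝ → b i < ⟪w i, x⟫_ℝ

/-- from coverings of the polar body to separating hyperplanes -/
theorem sep_of_cover {E : Type*} [NormedAddCommGroup E] [InnerProductSpace ℝ E]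
    [FiniteDimensional ℝ E] {K : Set E} (hKc : IsCompact K) {o : E}
    (ho : o ∈ interior K) {N : ℕ} (T : Finset E) (hT : T.card ≤ N)
    (h2 : Pol K o ⊆ ⋃ t ∈ T, (fun x => t + x) '' interior (Pol K o)) :
    SeparatedBy K o N := by
  classical
  obtain ⟨ε, hε, h3⟩ := sep_of_cov hKc ho T h2
  refine ⟨fun i => T.toList.getD i 0, fun i => ⟪T.toList.getD i 0, o⟫_ℝ + ε,
    fun u x₀ hu hx₀ hmax => ?_⟩
  obtain ⟨t, ht, _, h4⟩ := h3 u x₀ hu hx₀ hmax
  obtain ⟨i, hi, hit⟩ := List.getElem_of_mem (Finset.mem_toList.2 ht)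
  have hiN : i < N := by
    rw [Finset.length_toList] at hi
    omega
  refine ⟨⟨i, hiN⟩, by simp only; linarith, fun x hx hxu => ?_⟩
  have h5 : T.toList.getD i 0 = t := by
    rw [List.getD_eq_getElem _ _ hi, hit]
  simp only [h5]
  exact h4 x hx hxu

/-- from separating hyperplanes to coverings of the polar body -/
theorem cover_of_sep {m N : ℕ} (hm : 1 ≤ m) {L : Set (EuclideanSpace ℝ (Fin m))}
    (hL : Convex ℝ L) (hLc : IsCompact L) (hL0 : 0 ∈ interior L) (h : SeparatedBy L 0 N) :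
    ∃ T : Finset (EuclideanSpace ℝ (Fin m)), T.card ≤ N ∧
      Pol L 0 ⊆ ⋃ t ∈ T, (fun x => t + x) '' interior (Pol L 0) := by
  have hnt : Nontrivial (EuclideanSpace ℝ (Fin m)) := by
    have : Nonempty (Fin m) := ⟨⟨0, hm⟩⟩
    infer_instance
  have hN : 0 < N := by
    obtain ⟨w, b, hwb⟩ := h
    obtain ⟨u, hu⟩ := exists_ne (0 : EuclideanSpace ℝ (Fin m))
    obtain ⟨x₀, hx₀, hmax⟩ := hLc.exists_isMaxOn ⟨0, interior_subset hL0⟩
      (f := fun x => ⟪u, x⟫_ℝ) (by fun_prop)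
    obtain ⟨i, -⟩ := hwb u x₀ hu hx₀ (fun y hy => hmax hy)
    exact (Nat.zero_le _).trans_lt i.2
  have hbi : Pol (Pol L 0) 0 = L := by
    ext v
    rw [bipolar hL hLc.isClosed (interior_subset hL0), zero_add]
  obtain ⟨D, hD, h1⟩ := Pool.Agent.Results.MP_5e7226_co.ExtremePointsInFlats.dirs_of_sep
    (Pol.convex L 0) (Pol.isCompact hL0) (Pol.zero_mem_interior hLc) hN (by rw [hbi]; exact h)
  obtain ⟨T, hT, h2⟩ := Pool.Agent.W677.Shadow.cover_of_dirs (Pol.convex L 0)
    (Pol.isCompact hL0) D h1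
  exact ⟨T, hT.trans hD, h2⟩

/-- **Main theorem.** Let `L j ⊆ ℝ^(m j)`, `m j ≥ 1`, be convex bodies with interior point `0` such
that `N j` hyperplanes separate the faces of `L j` from `0`, and let `K` be a convex body in the
Euclidean product of the `ℝ^(m j)`, with interior point `0`, which contains with `x` all `y` with
`g_j (y_j) = g_j (x_j)` for all `j`, where `g_j` is the gauge of `L j`. Then the faces of `K` are
separated from `0` by
1. `∏ (N j + 1) - 1` hyperplanes (`k ≥ 1`);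
2. `∏ N j` hyperplanes, if `∑ 1 / N j ≤ 1`;
3. `∏ N j` hyperplanes, if `k = 3` and all `N j ≥ 2`. -/
theorem result (k : ℕ) (m : Fin k → ℕ) (hm : ∀ j, 1 ≤ m j)
    (L : ∀ j, Set (EuclideanSpace ℝ (Fin (m j)))) (hL : ∀ j, Convex ℝ (L j))
    (hLc : ∀ j, IsCompact (L j)) (hL0 : ∀ j, 0 ∈ interior (L j)) (N : Fin k → ℕ)
    (hN : ∀ j, SeparatedBy (L j) 0 (N j))
    (K : Set (PiLp 2 fun j => EuclideanSpace ℝ (Fin (m j)))) (hKc : IsCompact K)
    (hK0 : 0 ∈ interior K)
    (hinv : ∀ x ∈ K, ∀ y : PiLp 2 fun j => EuclideanSpace ℝ (Fin (m j)),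
      (∀ j, gauge (L j) (y j) = gauge (L j) (x j)) → y ∈ K) :
    (1 ≤ k → SeparatedBy K 0 (∏ j, (N j + 1) - 1)) ∧
    (∑ j, (1 : ℝ) / N j ≤ 1 → SeparatedBy K 0 (∏ j, N j)) ∧
    (k = 3 → (∀ j, 2 ≤ N j) → SeparatedBy K 0 (∏ j, N j)) := by
  classical
  have hnt : ∀ j, Nontrivial (EuclideanSpace ℝ (Fin (m j))) := fun j => by
    have : Nonempty (Fin (m j)) := ⟨⟨0, hm j⟩⟩
    infer_instance
  have hcov := fun j => cover_of_sep (hm j) (hL j) (hLc j) (hL0 j) (hN j)
  refine ⟨fun hk => ?_, fun hsum => ?_, fun hk h2 => ?_⟩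
  · have : Nonempty (Fin k) := ⟨⟨0, hk⟩⟩
    obtain ⟨T, hT, h1⟩ := Pool.Agent.R166.Solid.general_pol hL hLc hL0 hKc hK0 hinv N hcov
    exact sep_of_cover hKc hK0 T hT h1
  · obtain ⟨T, hT, h1⟩ := Pool.Agent.R166.Solid.kraft_pol hL hLc hL0 hKc hK0 hinv N hsum hcov
    exact sep_of_cover hKc hK0 T hT h1
  · subst hk
    obtain ⟨T, hT, h1⟩ := Pool.Agent.R166.Solid.three_pol hL hLc hL0 hKc hK0 hinv N h2 hcov
    exact sep_of_cover hKc hK0 T hT h1

end Pool.Agent.Results.MP_5e7226_co.BlockwiseGaugeInvariant
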