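import Pool.Agent.R753.SJ.I

set_option autoImplicit false

/-!
# MP_5e7226_co: interior points close to a facet

How does `s(K, o)` depend on `o`?  Let `K` be a convex body in a `d`-dimensional Euclidean space and
`F` a facet of `K` (a face of dimension `d - 1`), `o'` a relative interior point of `F`.  We prove:

1. `s(K, o) ≤ s(F, o') + 1` for all interior points `o` of `K` close enough to `o'`.  So, if the
   conjecture is true in dimension `d - 1`, then `s(K, o) ≤ 2 ^ (d - 1) + 1` near every facet.
2. Near every facet `s(K, o) ≤ 5` if `d = 3`, and `s(K, o) ≤ 14 < 2 ^ 4` if `d = 4`.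
3. For every polytope `K` there is a nonempty open set of interior points `o` with
   `s(K, o) = d + 1`, which is the least possible value.

The proof of (1). Let `e` be the inner unit normal vector of `F`, `w_j`, `c_j` (`j ≤ n`) the
hyperplanes in the hyperplane of `F` separating the faces of `F` from `o'` (`⟪w_j, x - o'⟫ = c_j`).
For large `N` take the hyperplanes `⟪w_j + N e, x - o'⟫ = c_j / 2`, and one hyperplane parallel to `F`
between `o` and `F`. We claim that, for large `N`, every face `G ≠ F` of `K` is strictly on the outer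
side of one of them. Otherwise there are faces `G_N`, with unit normal vectors `u_N`, and points
`x_{N,j}` of `G_N` on the inner sides; they converge, for a subsequence, to points `x_j` of
`F`, on the inner sides of the `w_j`. If the limit `u` of the `u_N` is not `-e` then `u` is maximal
on `K` at all the `x_j`, and so is its projection `b ≠ 0` to the hyperplane of `F`, on `F`. If
`u = -e`, the same is true for a limit `b` of the normalized projections of the `u_N`. So all the
`x_j` are in the same face of `F`, a contradiction.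
(2) uses the bounds 4 for the plane and 13 for the space (`W677.Summand.body_le_two` and
`Y512.covN13` of the starting files). (3) is proved by induction: a polytope has a facet, which is a
polytope. The lower bound `d + 1`: for `d` hyperplanes with normal vectors `h_i` there is `u ≠ 0`
with `⟪h_i, u⟫ ≤ 0` for all `i`, and no face containing the boundary point `o + t u` is separated.
-/

namespace Pool.Agent.Results.MP_5e7226_co.NearFacets

open scoped InnerProductSpace
open Pool.Agent.R753 Module

/-- `s(K, o) ≤ n`: there are at most `n` hyperplanes `{x | ⟪h.1, x⟫ = h.2}` such that every face of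
`K` (the set of the points of `K` at which a functional `⟪u, ·⟫`, `u ≠ 0`, is maximal on `K`) is
strictly separated from `o` by one of them. -/
def Separable {E : Type*} [NormedAddCommGroup E] [InnerProductSpace ℝ E] (n : ℕ) (K : Set E)
    (o : E) : Prop :=
  ∃ H : Finset (E × ℝ), H.card ≤ n ∧ (∀ h ∈ H, h.1 ≠ 0) ∧
    ∀ u x₀ : E, u ≠ 0 → x₀ ∈ K → (∀ y ∈ K, ⟪u, y⟫_ℝ ≤ ⟪u, x₀⟫_ℝ) →
      ∃ h ∈ H, ⟪h.1, o⟫_ℝ < h.2 ∧ ∀ x ∈ K, ⟪u, x⟫_ℝ = ⟪u, x₀⟫_ℝ → h.2 < ⟪h.1, x⟫_ℝ

/-- The part of `K` in the hyperplane through `o'` orthogonal to `e`, as a subset of the linear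
hyperplane `eᗮ` (`o'` corresponds to `0`). -/
def face {E : Type*} [NormedAddCommGroup E] [InnerProductSpace ℝ E] (K : Set E) (o' e : E) :
    Set (Submodule.span ℝ {e})ᗮ :=
  {w | o' + (w : E) ∈ K}

/-- **Main theorem.** Let `K` be a convex body in a `d`-dimensional Euclidean space `E`.
(1) Let `d ≥ 2` and let the hyperplane through `o' ∈ K` with the unit normal vector `e` support `K`
(`⟪e, x - o'⟫ ≥ 0` on `K`). If `n` hyperplanes suffice for the face `F` of `K` in this hyperplane and
`o'`, then `n + 1` hyperplanes suffice for `K` and all interior points `o` of `K` close to `o'`.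
(2) If moreover `F` is a facet and `o'` is a relative interior point of `F`, then 5 hyperplanes
suffice if `d = 3`, and 14 if `d = 4`.
(3) `s(K, o) ≥ d + 1` for every interior point `o` (`d ≥ 1`).
(4) If `K` is a polytope, the bounded intersection of finitely many half-spaces, and `d ≥ 1`, then
there is a nonempty open set `U` of interior points of `K` with `s(K, o) = d + 1` for all
`o ∈ U`. -/
theorem result (E : Type) [NormedAddCommGroup E] [InnerProductSpace ℝ E] [FiniteDimensional ℝ E]
    (K : Set E) (hK : Convex ℝ K) (hKc : IsCompact K) (hKi : (interior K).Nonempty) :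
    (∀ o' e : E, 2 ≤ finrank ℝ E → o' ∈ K → ‖e‖ = 1 → (∀ x ∈ K, 0 ≤ ⟪e, x - o'⟫_ℝ) →
      (∀ n : ℕ, Separable n (face K o' e) 0 →
        ∃ ε : ℝ, 0 < ε ∧ ∀ o ∈ interior K, dist o o' < ε → Separable (n + 1) K o) ∧
      (0 ∈ interior (face K o' e) →
        (finrank ℝ E = 3 →
          ∃ ε : ℝ, 0 < ε ∧ ∀ o ∈ interior K, dist o o' < ε → Separable 5 K o) ∧
        (finrank ℝ E = 4 →
          ∃ ε : ℝ, 0 < ε ∧ ∀ o ∈ interior K, dist o o' < ε → Separable 14 K o))) ∧
    (1 ≤ finrank ℝ E → ∀ o ∈ interior K, ∀ n : ℕ, Separable n K o → finrank ℝ E + 1 ≤ n) ∧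
    (1 ≤ finrank ℝ E → (∃ I : Finset (E × ℝ), K = {x | ∀ h ∈ I, ⟪h.1, x⟫_ℝ ≤ h.2}) →
      ∃ U : Set E, IsOpen U ∧ U.Nonempty ∧ U ⊆ interior K ∧
        ∀ o ∈ U, Separable (finrank ℝ E + 1) K o ∧
          ∀ n : ℕ, Separable n K o → finrank ℝ E + 1 ≤ n) := by
  refine ⟨fun o' e hd h0 he hpos => ⟨fun n hs => SJ.facet_int hKc he h0 hpos hKi hd hs,
    fun hF => ⟨fun h3 => SJ.facet_three hKc he h0 hpos hKi h3 hF,
      fun h4 => SJ.facet_four hKc he h0 hpos hKi h4 hF⟩⟩,
    fun hd o ho n hs => SJ.lower hK hKc ho hd hs, ?_⟩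
  rintro hd ⟨I, rfl⟩
  obtain ⟨d, hdd⟩ : ∃ d, finrank ℝ E = d + 1 := ⟨finrank ℝ E - 1, by omega⟩
  obtain ⟨U, h1, h2, h3, h4⟩ := SJ.poly d E hdd I hKc hKi
  refine ⟨U, h1, h2, h3, fun o ho => ⟨?_, fun n hs => SJ.lower hK hKc (h3 ho) hd hs⟩⟩
  rw [hdd]
  exact h4 o ho

end Pool.Agent.Results.MP_5e7226_co.NearFacets
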