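import Pool.Agent.R753.SJ.F

set_option autoImplicit false

/-!
# MP_5e7226_co: bodies from which a hyperplane through `o` cuts off a pyramid

Let `K` be a convex body in a Euclidean space of dimension `d` and `o` an interior point, and let
`W` be a hyperplane through `o` such that the part of `K` on one side of `W` is a pyramid, i.e. the
hull of `K ∩ W` and one point `a`.  Nothing is assumed about the part of `K` on the other side, about
`K ∩ W`, or about symmetry.  We prove `s(K, o) ≤ 2 s(K ∩ W, o)`.  So if `(K ∩ W, o)` satisfies the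
conjectured bound `2 ^ (d - 1)` in `W` then `(K, o)` satisfies the conjectured bound `2 ^ d`.
In particular, `s(K, o) ≤ 8` for all such bodies in `𝔼³`.

The proof. The polar body `P` of `K` with respect to `o` is contained in the half-space
`⟪v, a - o⟫ ≤ 1`. Let `e` be the normal vector of `W`, on the side of `K` which is not a pyramid. If
`v ∈ P` then `v - s e ∈ P` for `s ≥ 0` as long as `⟪v - s e, a - o⟫ ≤ 1`, because this is true on `a`
and on `K ∩ W`, and on the other part of `K`. The section of `P` by the hyperplane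
`⟪v, a - o⟫ = 1` is an affine image of the polar body of `K ∩ W` in `W`. So `P` is a monotone
fibration over this section, and it is covered by `2 N` translates of its interior if the section
is covered by `N` translates (`Pool.Agent.R753.Mono.fib`, the result
`MP_eba1ef_gt.MonotoneFibrations`). The passage from hyperplanes to coverings of the polar body and
back is in `Pool.Agent.R753.SJ.A` and in the starting file `H985.Sep`; the plane case is
`Pool.Agent.W677.Summand.body_le_two` of the starting files.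
-/

namespace Pool.Agent.Results.MP_5e7226_co.PyramidCut

open scoped InnerProductSpace
open Pool.Agent.R753 Module

/-- `s(K, o) ≤ n`: there are at most `n` hyperplanes `{x | ⟪h.1, x⟫ = h.2}` such that every face of
`K` (the set of the points of `K` at which a functional `⟪u, ·⟫`, `u ≠ 0`, is maximal on `K`) is
strictly separated from `o` by one of them. -/
def Separable {E : Type*} [NormedAddCommGroup E] [InnerProductSpace ℝ E] (n : ℕ) (K : Set E)
    (o : E) : Prop :=
  ∃ H : Finset (E × ℝ), H.card ≤ n ∧ (∀ h ∈ H, h.1 ≠ 0) ∧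
    ∀ u x₀ : E, u ≠ 0 → x₀ ∈ K → (∀ y ∈ K, ⟪u, y⟫_ℝ ≤ ⟪u, x₀⟫_ℝ) →
      ∃ h ∈ H, ⟪h.1, o⟫_ℝ < h.2 ∧ ∀ x ∈ K, ⟪u, x⟫_ℝ = ⟪u, x₀⟫_ℝ → h.2 < ⟪h.1, x⟫_ℝ

/-- Let `K` be a convex body in a finite-dimensional Euclidean space `E`, `o` an interior point, and
`W = {y | ⟪e, y - o⟫ = 0}` a hyperplane through `o` such that, for some `a ∈ K` with
`⟪e, a - o⟫ < 0`, the part of `K` in `⟪e, x - o⟫ ≤ 0` is contained in the convex hull of `a` and
`K ∩ W`.  Then `s(K, o) ≤ 2 n` if `s(K ∩ W, o) ≤ n` in `W` (`K ∩ W` is represented by the set of the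
`w` in the linear hyperplane `eᗮ` such that `o + w ∈ K`, and `o` by `0`), and if `dim E ≤ 3` then
`s(K, o) ≤ 2 ^ dim E`. -/
theorem result (E : Type) [NormedAddCommGroup E] [InnerProductSpace ℝ E] [FiniteDimensional ℝ E]
    (K : Set E) (hK : Convex ℝ K) (hKc : IsCompact K) (o : E) (ho : o ∈ interior K)
    (e a : E) (ha : a ∈ K) (he : ⟪e, a - o⟫_ℝ < 0)
    (hpyr : ∀ x ∈ K, ⟪e, x - o⟫_ℝ ≤ 0 →
      x ∈ convexHull ℝ (insert a {y | y ∈ K ∧ ⟪e, y - o⟫_ℝ = 0})) :
    (∀ n : ℕ, 1 ≤ n → Separable n {w : (Submodule.span ℝ {e})ᗮ | o + (w : E) ∈ K} 0 →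
      Separable (2 * n) K o) ∧
    (finrank ℝ E ≤ 3 → Separable (2 ^ finrank ℝ E) K o) :=
  ⟨fun _ hn hs => SJ.pyr_sep hK hKc ho ha he hpyr hn hs,
    fun hd => SJ.pyr_three hK hKc ho ha he hpyr hd⟩

end Pool.Agent.Results.MP_5e7226_co.PyramidCut
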