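import Pool.Agent.R166.Spike.Eq
import Pool.Agent.Results.MP_5e7226_co.ExtremePointsInFlats
import Pool.Agent.Results.MP_eba1ef_gt.ThirteenInSpace
import Pool.Agent.Results.MP_eba1ef_gt.AllConvexBodies

set_option autoImplicit false

/-!
# MP_5e7226_co: bodies whose extreme points are in a wedge or on its opposite edges

Let `K` be a convex body in `ℝ^d`, `o` an interior point, `u_1, …, u_k` linearly independent and
`W` a complement of their span, of dimension `m = d - k`. Suppose that each extreme point `x` of `K`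
is in the wedge `{o + ∑ c_i u_i + y : c_i ≥ 0, y ∈ W}` or on one of the `k` lines `o + ℝ u_i`. So `K`
is the convex hull of any compact subset of the wedge (`o + W` is its edge) and of `k` further
points (spikes) on the half-lines opposite to the `u_i`. For `m = 0` this is the hull of a compact
subset of a simplicial cone with the apex `o` and of one point on each of the opposite half-lines;
all cross-bodies are of this form. It is proved:

1. If `N ≥ 1` hyperplanes suffice for all pairs `(L, p)` in dimension `m`, then `2 ^ k * N`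
   hyperplanes suffice for `(K, o)`. So the bound of the problem in dimension `m` implies it for
   all these bodies, of dimension `k + m`.
2. If `m ≤ 2` then `2 ^ d` hyperplanes suffice, as conjectured.
3. If `m = 3` then `13 * 2 ^ k` suffice, and for `m ≥ 2` at most
   `3 * 2 ^ d * m log (2 m ^ 2 + 2 m + 1)` are needed.
4. If `m = 0` then both parts of the conjecture are true for `(K, o)`: `2 ^ d` hyperplanes suffice,
   and `2 ^ d - 1` suffice if and only if `K` is not a cross-body centred at `o`.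

The proof. In the coordinates `x_i = ⟪v, u_i⟫` and the restriction of `v` to `W`, let `L_i` be the
least value of `x_i` on the polar body. It is attained and it bounds `x_i c ≤ 1` for the extreme
points `o + c u_i`, `c < 0`. The other extreme points are in the wedge, and they give inequalities
with nonnegative coefficients of the `x_i`. So the polar body contains with `v` all `v'` with the
same restriction to `W` and `L_i ≤ x_i' ≤ x_i`. This is a monotone fibration (for `m = 0`: a convex
corner), for which the covering numbers are estimated in the files `MonotoneFibrations` and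
`ConvexCorners` of helper753 for MP_eba1ef_gt. For small `m` the section is covered by Levi's
theorem, and by 13 translates for `m = 3`.
-/

namespace Pool.Agent.Results.MP_5e7226_co.WedgeAndAxes

open scoped InnerProductSpace

/-- The Euclidean space `ℝ^d`. -/
abbrev Eu (d : ℕ) : Type := EuclideanSpace ℝ (Fin d)

/-- Some `N` hyperplanes `{x | ⟪w i, x⟫ = b i}` are such that every face of `K` (the set of the
points `x` of `K` at which `⟪u, x⟫` is maximal, `u ≠ 0`) is strictly separated from `o` by one of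
them. -/
def SeparatedBy {d : ℕ} (K : Set (Eu d)) (o : Eu d) (N : ℕ) : Prop :=
  ∃ (w : Fin N → Eu d) (b : Fin N → ℝ), ∀ u x₀ : Eu d, u ≠ 0 → x₀ ∈ K →
    (∀ y ∈ K, ⟪u, y⟫_ℝ ≤ ⟪u, x₀⟫_ℝ) →
      ∃ i, ⟪w i, o⟫_ℝ < b i ∧ ∀ x ∈ K, ⟪u, x⟫_ℝ = ⟪u, x₀⟫_ℝ → b i < ⟪w i, x⟫_ℝ

/-- `K` is a cross-body centred at `o`. -/
def IsCrossBody {d : ℕ} (K : Set (Eu d)) (o : Eu d) : Prop :=
  ∃ (v : Fin d → Eu d) (t : Fin d → ℝ), LinearIndependent ℝ v ∧ (∀ i, 0 < t i) ∧
    K = convexHull ℝ (⋃ i, ({o + v i, o - t i • v i} : Set (Eu d)))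

/-- Each extreme point of `K` is `o + ∑ c_i u_i + y` with `c_i ≥ 0` and `y ∈ W`, or it is
`o + c_i u_i` for some `i`. -/
def ExtremePointsInWedgeOrOnAxes {d k : ℕ} (K : Set (Eu d)) (o : Eu d) (u : Fin k → Eu d)
    (W : Submodule ℝ (Eu d)) : Prop :=
  ∀ x ∈ K.extremePoints ℝ, ∃ (c : Fin k → ℝ) (y : Eu d), y ∈ W ∧ x = o + ∑ i, c i • u i + y ∧
    ((∀ i, 0 ≤ c i) ∨ (y = 0 ∧ ∃ i, ∀ j, j ≠ i → c j = 0))

/-- the two forms of the definition of a cross-body -/
theorem isCrossBody_iff {d : ℕ} (K : Set (Eu d)) (o : Eu d) : IsCrossBody K o ↔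
    ∃ (v : Fin d → Eu d) (t : Fin d → ℝ), LinearIndependent ℝ v ∧ (∀ i, 0 < t i) ∧
      K = convexHull ℝ (Set.range (fun i => o + v i) ∪ Set.range (fun i => o - t i • v i)) := by
  have e : ∀ (v : Fin d → Eu d) (t : Fin d → ℝ),
      (⋃ i, ({o + v i, o - t i • v i} : Set (Eu d))) =
        Set.range (fun i => o + v i) ∪ Set.range (fun i => o - t i • v i) := by
    intro v t
    ext x
    simp only [Set.mem_iUnion, Set.mem_insert_iff, Set.mem_singleton_iff, Set.mem_union,
      Set.mem_range]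
    constructor
    · rintro ⟨i, h | h⟩
      · exact Or.inl ⟨i, h.symm⟩
      · exact Or.inr ⟨i, h.symm⟩
    · rintro (⟨i, h⟩ | ⟨i, h⟩)
      · exact ⟨i, Or.inl h.symm⟩
      · exact ⟨i, Or.inr h.symm⟩
  unfold IsCrossBody
  simp only [e]

/-- from the separation of all bodies to the coverings of all bodies, in dimension `m` -/
theorem cover_of_sep {m N : ℕ} (hN : 0 < N) (h : ∀ L : Set (Eu m), Convex ℝ L → IsCompact L →
      ∀ p ∈ interior L, SeparatedBy L p N) (C : Set (Eu m)) (hC : Convex ℝ C) (hCc : IsCompact C)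
    (hCi : (interior C).Nonempty) :
    ∃ T : Finset (Eu m), T.card ≤ N ∧ C ⊆ ⋃ t ∈ T, (fun x => t + x) '' interior C := by
  obtain ⟨c, hc⟩ := hCi
  obtain ⟨D, hD, h1⟩ := Pool.Agent.Results.MP_5e7226_co.ExtremePointsInFlats.dirs_of_sep hC hCc hc
    hN (h (Pool.Agent.TH438.Hull.Pol C c) (Pool.Agent.TH438.Hull.Pol.convex _ _)
      (Pool.Agent.TH438.Hull.Pol.isCompact hc) 0
      (Pool.Agent.TH438.Hull.Pol.zero_mem_interior hCc))
  obtain ⟨T, hT, h2⟩ := Pool.Agent.W677.Shadow.cover_of_dirs hC hCc D h1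
  exact ⟨T, hT.trans hD, h2⟩

/-- **Main theorem.** Let `K` be a convex body in `ℝ^d` with interior point `o`, let `u_1, …, u_k` be
linearly independent, `W` a complement of their span, `m = d - k`, and suppose that each extreme
point of `K` is in the wedge `{o + ∑ c_i u_i + y : c_i ≥ 0, y ∈ W}` or on a line `o + ℝ u_i`.
1. If `N ≥ 1` hyperplanes suffice for every convex body and every interior point in dimension `m`,
then `2 ^ k * N` hyperplanes suffice to separate the faces of `K` strictly from `o`.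
2. If `m ≤ 2` then `2 ^ d` hyperplanes suffice.
3. If `m = 3` then `13 * 2 ^ k` hyperplanes suffice, and for `m ≥ 2` at most
`3 * 2 ^ d * m * log (2 m ^ 2 + 2 m + 1)` are needed.
4. If `m = 0` then `2 ^ d - 1` hyperplanes suffice if and only if `K` is not a cross-body centred at
`o`. -/
theorem result (d k m : ℕ) (hd : 1 ≤ d) (hkm : k + m = d) (K : Set (Eu d)) (hK : Convex ℝ K)
    (hKc : IsCompact K) (o : Eu d) (ho : o ∈ interior K) (u : Fin k → Eu d)
    (hu : LinearIndependent ℝ u) (W : Submodule ℝ (Eu d))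
    (hW : IsCompl (Submodule.span ℝ (Set.range u)) W)
    (hext : ExtremePointsInWedgeOrOnAxes K o u W) :
    (∀ N : ℕ, 0 < N → (∀ L : Set (Eu m), Convex ℝ L → IsCompact L →
      ∀ p ∈ interior L, SeparatedBy L p N) → SeparatedBy K o (2 ^ k * N)) ∧
    (m ≤ 2 → SeparatedBy K o (2 ^ d)) ∧
    (m = 3 → SeparatedBy K o (13 * 2 ^ k)) ∧
    (2 ≤ m → ∃ N : ℕ, (N : ℝ) ≤ 3 * 2 ^ d * (m * Real.log (2 * m ^ 2 + 2 * m + 1)) ∧
      SeparatedBy K o N) ∧
    (m = 0 → (SeparatedBy K o (2 ^ d - 1) ↔ ¬ IsCrossBody K o)) := by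
  have key : ∀ N : ℕ, (∀ C : Set (Eu m), Convex ℝ C → IsCompact C → (interior C).Nonempty →
      ∃ T : Finset (Eu m), T.card ≤ N ∧ C ⊆ ⋃ t ∈ T, (fun x => t + x) '' interior C) →
      SeparatedBy K o (2 ^ k * N) := by
    intro N hN
    obtain ⟨T, hT, h1⟩ := Pool.Agent.R166.Spike.cov_pol hkm hK hKc ho u hu W hW hext hN
    exact Pool.Agent.R166.Spike.sep_of_cover hKc ho T hT h1
  refine ⟨fun N hN h => key N (cover_of_sep hN h), fun hm => ?_, fun hm => ?_, fun hm => ?_,
    fun hm => ?_⟩
  · have h1 := key (2 ^ m) (fun C h1 h2 h3 => Pool.Agent.W677.Summand.body_le_two hm ⟨h1, h2, h3⟩)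
    rwa [← pow_add, hkm] at h1
  · subst hm
    rw [mul_comm]
    exact key 13 (fun C h1 h2 h3 =>
      Pool.Agent.Results.MP_eba1ef_gt.ThirteenInSpace.result C h1 h2 h3)
  · have hm' : (2 : ℝ) ≤ m := by exact_mod_cast hm
    have hlog : 0 ≤ Real.log (2 * (m : ℝ) ^ 2 + 2 * m + 1) := Real.log_nonneg (by nlinarith)
    have hB : (0 : ℝ) ≤ 3 * 2 ^ m * (m * Real.log (2 * m ^ 2 + 2 * m + 1)) := by positivity
    have h1 := key ⌊(3 * 2 ^ m * (m * Real.log (2 * m ^ 2 + 2 * m + 1)) : ℝ)⌋₊
      (fun C h1 h2 h3 => by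
        obtain ⟨T, h4, h5⟩ :=
          Pool.Agent.Results.MP_eba1ef_gt.AllConvexBodies.result m hm C h1 h2 h3
        exact ⟨T, Nat.le_floor h5, h4⟩)
    refine ⟨_, ?_, h1⟩
    push_cast
    calc (2 : ℝ) ^ k * (⌊(3 * 2 ^ m * (m * Real.log (2 * m ^ 2 + 2 * m + 1)) : ℝ)⌋₊ : ℝ) ≤
        2 ^ k * (3 * 2 ^ m * (m * Real.log (2 * m ^ 2 + 2 * m + 1))) :=
          mul_le_mul_of_nonneg_left (Nat.floor_le hB) (by positivity)
      _ = 3 * 2 ^ d * (m * Real.log (2 * m ^ 2 + 2 * m + 1)) := by
          rw [← hkm, pow_add]; ring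
  · subst hm
    have hkd : k = d := by omega
    subst hkd
    rw [isCrossBody_iff]
    constructor
    · intro h1 h2
      exact Pool.Agent.R166.Spike.not_sep hd h2 h1
    · intro h1
      rcases Pool.Agent.R166.Spike.eq_case hd hK hKc ho u hu W hW hext with ⟨T, hT, h2⟩ | h2
      · exact Pool.Agent.R166.Spike.sep_of_cover hKc ho T hT h2
      · exact absurd h2 h1

end Pool.Agent.Results.MP_5e7226_co.WedgeAndAxes
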